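import Mathlib

/-! A graph and a rotor mechanism for which every initial rotor configuration is transient. -/

open Finset

namespace Pool.Agent.Results.MP_c5a801_co.AllTransient

/-- `τ` is a rotor mechanism on `G`: each `τ v` is a cyclic permutation of the neighbours of `v` -/
def IsMechanism {V : Type} (G : SimpleGraph V) (τ : V → V → V) : Prop :=
  ∀ v, Set.BijOn (τ v) (G.neighborSet v) (G.neighborSet v) ∧
    ∀ a ∈ G.neighborSet v, ∀ b ∈ G.neighborSet v, ∃ k, (τ v)^[k] a = b

/-- one step: advance the rotor at the current vertex, then follow it -/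
def step {V : Type} [DecidableEq V] (τ : V → V → V) (z : V × (V → V)) : V × (V → V) :=
  (τ z.1 (z.2 z.1), Function.update z.2 z.1 (τ z.1 (z.2 z.1)))

/-- vertices: layer `n` has `2 ^ n` points -/
abbrev W : Type := {p : ℕ × ℕ // p.2 < 2 ^ p.1}

/-- the point of layer `n` with index `i` modulo `2 ^ n` -/
def mk (n i : ℕ) : W := ⟨(n, i % 2 ^ n), Nat.mod_lt _ (by positivity)⟩

/-- consecutive layers are completely joined -/
def G : SimpleGraph W where
  Adj x y := x.1.1 + 1 = y.1.1 ∨ y.1.1 + 1 = x.1.1
  symm := ⟨fun _ _ h => h.symm⟩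
  loopless := ⟨fun _ h => by omega⟩

/-- four steps up after each step down -/
def tau (x y : W) : W :=
  if x.1.1 = 0 then mk 1 (y.1.2 + 1)
  else if y.1.1 < x.1.1 then mk (x.1.1 + 1) (4 * y.1.2)
  else if y.1.2 % 4 = 3 then mk (x.1.1 - 1) (y.1.2 / 4 + 1) else mk (x.1.1 + 1) (y.1.2 + 1)

/-- enumeration of the neighbours -/
def nb (n j : ℕ) : W := if j % 5 = 0 then mk n (j / 5) else mk (n + 2) (4 * (j / 5) + j % 5 - 1)

lemma mk_val {n i : ℕ} (h : i < 2 ^ n) : (mk n i).1 = (n, i) := by simp [mk, Nat.mod_eq_of_lt h]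

lemma layer_fin (n : ℕ) : {y : W | y.1.1 = n}.Finite :=
  (((range (2 ^ n)).image (mk n)).finite_toSet).subset fun y hy => by
    simp only [coe_image, coe_range, Set.mem_image, Set.mem_Iio]
    have hy' : y.1.1 = n := hy
    exact ⟨y.1.2, hy' ▸ y.2, Subtype.ext (by rw [mk_val (hy' ▸ y.2), ← hy'])⟩

lemma nb_fin (v : W) : (G.neighborSet v).Finite :=
  ((layer_fin (v.1.1 + 1)).union (layer_fin (v.1.1 - 1))).subset fun y hy => by
    rcases hy with h | h
    · exact Or.inl h.symm
    · exact Or.inr (show y.1.1 = _ by omega)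

lemma tau_adj (x y : W) : G.Adj x (tau x y) := by
  unfold tau
  split_ifs with h1 h2 h3 <;> simp [G, mk] <;> omega

lemma tau_nb (x : W) (n : ℕ) (hx : x.1.1 = n + 1) (j : ℕ) (hj : j < 5 * 2 ^ n) :
    tau x (nb n j) = nb n (j + 1) := by
  have h4 : 2 ^ (n + 2) = 4 * 2 ^ n := by ring
  by_cases h : j % 5 = 0
  · have e : (nb n j).1 = (n, j / 5) := by rw [nb, if_pos h, mk_val (by omega)]
    rw [tau, e, hx, if_neg (by omega), if_pos (by simp), nb, if_neg (by omega)]
    congr 1
    simp only
    omega
  · have e : (nb n j).1 = (n + 2, 4 * (j / 5) + j % 5 - 1) := by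
      rw [nb, if_neg h, mk_val (by omega)]
    rw [tau, e, hx, if_neg (by omega), if_neg (by simp), nb]
    simp only
    split_ifs with h1 h2 h2
    · congr 1; omega
    · omega
    · omega
    · congr 1; omega

lemma mech : IsMechanism G tau := by
  have key : ∀ (v : W) (M : ℕ) (f : ℕ → W), f M = f 0 → (∀ j < M, tau v (f j) = f (j + 1)) →
      (∀ j, G.Adj v (f j)) → (∀ a, G.Adj v a → ∃ j < M, f j = a) →
      Set.BijOn (tau v) (G.neighborSet v) (G.neighborSet v) ∧
        ∀ a ∈ G.neighborSet v, ∀ b ∈ G.neighborSet v, ∃ k, (tau v)^[k] a = b := by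
    intro v M f h0 h1 h2 h3
    have hit : ∀ k i, i + k ≤ M → (tau v)^[k] (f i) = f (i + k) := by
      intro k i
      induction k with
      | zero => intro _; rfl
      | succ k ih =>
        intro h; rw [Function.iterate_succ_apply', ih (by omega), h1 _ (by omega), add_assoc]
    refine ⟨((nb_fin v).surjOn_iff_bijOn_of_mapsTo fun y _ => tau_adj v y).1 fun b hb => ?_,
      fun a ha b hb => ?_⟩
    · obtain ⟨j, hj, rfl⟩ := h3 b hb
      cases j with
      | zero => exact ⟨f (M - 1), h2 _, by rw [h1 _ (by omega), Nat.sub_add_cancel hj, h0]⟩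
      | succ j => exact ⟨f j, h2 _, h1 _ (by omega)⟩
    · obtain ⟨i, hi, rfl⟩ := h3 a ha
      obtain ⟨j, hj, rfl⟩ := h3 b hb
      refine ⟨j + (M - i), ?_⟩
      rw [Function.iterate_add_apply, hit _ _ (by omega), Nat.add_sub_cancel' hi.le, h0,
        hit _ _ (by omega), zero_add]
  intro v
  rcases hv : v.1.1 with _ | n
  · refine key v 2 (mk 1) rfl (fun j hj => ?_) (fun j => Or.inl (by simp [mk, hv])) fun a ha => ?_
    · rw [tau, if_pos hv, mk_val (by omega)]
    · have h : a.1.1 = 1 := by rcases ha with h | h <;> omega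
      have h2 := a.2
      rw [h] at h2
      exact ⟨a.1.2, h2, Subtype.ext (by rw [mk_val h2, ← h])⟩
  · have h4 : 2 ^ (n + 2) = 4 * 2 ^ n := by ring
    refine key v (5 * 2 ^ n) (nb n) ?_ (tau_nb v n hv) (fun j => ?_) fun a ha => ?_
    · simp [nb, mk]
    · unfold nb
      split_ifs <;> simp [G, mk, hv]
    · have h2 := a.2
      rcases ha with h | h
      · have h : a.1.1 = n + 2 := by omega
        rw [h] at h2
        refine ⟨5 * (a.1.2 / 4) + a.1.2 % 4 + 1, by omega, Subtype.ext ?_⟩
        rw [nb, if_neg (by omega), mk_val (by omega), ← h]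
        exact Prod.ext rfl (by simp only; omega)
      · have h : a.1.1 = n := by omega
        rw [h] at h2
        refine ⟨5 * a.1.2, by omega, Subtype.ext ?_⟩
        rw [nb, if_pos (by omega), mk_val (by omega), ← h]
        exact Prod.ext rfl (by simp only; omega)

/-- rotor phase -/
def c (x y : W) : ℕ := if x.1.1 = 0 ∨ y.1.1 < x.1.1 then 0 else y.1.2 % 4 + 1

/-- weight of a rotor -/
noncomputable def a (m : ℕ) (x : W) : ℝ :=
  if x.1.1 < m then 0 else if x.1.1 = m then 3 / 8 * (1 / 4) ^ m else 3 / 4 * (1 / 4) ^ x.1.1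

/-- potential of the walker -/
noncomputable def ph (m : ℕ) (x : W) : ℝ := (1 / 4) ^ max x.1.1 m

lemma cases_tau (x y : W) :
    ((tau x y).1.1 = x.1.1 + 1 ∧ (c x (tau x y) : ℝ) ≤ c x y + 1) ∨
      ((tau x y).1.1 + 1 = x.1.1 ∧ (c x (tau x y) : ℝ) = c x y - 4) := by
  rcases hx : x.1.1 with _ | n
  · left; simp [tau, c, hx, mk]
  have h4 : ∀ i, i % 2 ^ (n + 1 + 1) % 4 = i % 4 := fun i =>
    Nat.mod_mod_of_dvd _ ⟨2 ^ n, by ring⟩
  unfold tau
  rw [if_neg (by omega)]
  split_ifs with h1 h2
  · left; simp [c, hx, mk, h4]; positivity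
  · right; rw [hx] at h1; simp [c, hx, mk, h1, h2]
  · left; rw [hx] at h1
    simp only [c, hx, mk, h4, h1]
    refine ⟨trivial, ?_⟩
    rw [if_neg (by omega), if_neg (by simp)]
    exact_mod_cast (by omega : (y.1.2 + 1) % 4 + 1 ≤ y.1.2 % 4 + 1 + 1)

lemma drop (m : ℕ) (x y : W) : ph m (tau x y) + a m x * c x (tau x y) +
    (if x.1.1 = m then 3 / 8 * (1 / 4) ^ m else 0) ≤ ph m x + a m x * c x y := by
  have hp : ∀ k : ℕ, (0 : ℝ) < (1 / 4) ^ k := fun k => by positivity
  unfold ph a
  rcases cases_tau x y with ⟨h1, h2⟩ | ⟨h1, h2⟩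
  · rw [h1]
    rcases lt_trichotomy x.1.1 m with h | h | h
    · rw [if_pos h, if_neg h.ne, max_eq_right h, max_eq_right h.le]; simp
    · rw [if_neg h.not_lt, if_pos h, if_pos h, h, max_self, max_eq_left (by omega), pow_succ]
      nlinarith [hp m]
    · rw [if_neg h.not_gt, if_neg h.ne', if_neg h.ne', max_eq_left h.le, max_eq_left (by omega),
        pow_succ]
      nlinarith [hp x.1.1]
  · rw [h2]
    rcases lt_trichotomy x.1.1 m with h | h | h
    · rw [if_pos h, if_neg h.ne, max_eq_right (by omega), max_eq_right h.le]; simp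
    · rw [if_neg h.not_lt, if_pos h, if_pos h, h, max_self, max_eq_right (by omega)]
      nlinarith [hp m]
    · rw [if_neg h.not_gt, if_neg h.ne', if_neg h.ne', max_eq_left h.le, max_eq_left (by omega),
        ← h1, pow_succ]
      nlinarith [hp (tau x y).1.1]

lemma total (m : ℕ) (F : Finset W) (r : W → W) : ∑ x ∈ F, a m x * c x (r x) ≤ 6 := by
  have h1 : ∀ x : W, a m x * c x (r x) ≤ 3 * (1 / 4) ^ x.1.1 := fun x => by
    have h2 : (c x (r x) : ℝ) ≤ 4 := by
      unfold c; split_ifs
      · norm_num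
      · exact_mod_cast (by omega : (r x).1.2 % 4 + 1 ≤ 4)
    have hp : (0 : ℝ) < (1 / 4) ^ x.1.1 := by positivity
    unfold a
    split_ifs with h h'
    · linarith
    · rw [← h']; nlinarith
    · nlinarith
  refine (sum_le_sum fun x _ => h1 x).trans ?_
  rw [← sum_fiberwise_of_maps_to (g := fun x : W => x.1.1) (t := F.image fun x : W => x.1.1)
    fun x hx => mem_image_of_mem (fun x : W => x.1.1) hx]
  refine (sum_le_sum (g := fun n => 3 * (1 / 2 : ℝ) ^ n) fun n _ => ?_).trans ?_
  · rw [sum_congr rfl fun x hx => by rw [(mem_filter.1 hx).2], sum_const, nsmul_eq_mul]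
    have : (F.filter fun x => x.1.1 = n).card ≤ (range (2 ^ n)).card :=
      card_le_card_of_injOn (fun x => x.1.2) (fun x hx => by
        have := x.2
        rw [(mem_filter.1 hx).2] at this
        simpa using this) fun x hx y hy h =>
          Subtype.ext (Prod.ext ((mem_filter.1 hx).2.trans (mem_filter.1 hy).2.symm) h)
    rw [card_range] at this
    have h2 : ((F.filter fun x => x.1.1 = n).card : ℝ) ≤ 2 ^ n := by exact_mod_cast this
    calc _ ≤ 2 ^ n * (3 * (1 / 4 : ℝ) ^ n) := by gcongr
      _ = _ := by rw [mul_left_comm, ← mul_pow]; norm_num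
  · rw [← mul_sum]
    have := (summable_geometric_two.sum_le_tsum (F.image fun x : W => x.1.1)
      fun _ _ => by positivity).trans tsum_geometric_two.le
    linarith

theorem result : ∃ (V : Type) (_ : DecidableEq V) (G : SimpleGraph V) (τ : V → V → V),
    Infinite V ∧ G.Connected ∧ (∀ v, (G.neighborSet v).Finite) ∧ IsMechanism G τ ∧
    ∀ (r : V → V) (x : V), (∀ v, G.Adj v (r v)) →
      ∀ v, {t : ℕ | ((step τ)^[t] (x, r)).1 = v}.Finite := by
  refine ⟨W, inferInstance, G, tau, Infinite.of_injective (fun n => mk n 0)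
    fun a b h => congrArg (fun x : W => x.1.1) h, ?_, nb_fin, mech, fun r x _ v => ?_⟩
  · have : ∀ n, ∀ y : W, y.1.1 = n → G.Reachable (mk 0 0) y := by
      intro n
      induction n with
      | zero =>
        intro y hy
        have h2 := y.2
        rw [hy] at h2
        rw [show y = mk 0 0 from Subtype.ext (Prod.ext hy (by simp [mk]; omega))]
      | succ n ih =>
        exact fun y hy => (ih (mk n 0) rfl).trans (SimpleGraph.Adj.reachable (Or.inl hy.symm))
    exact (SimpleGraph.connected_iff_exists_forall_reachable _).2 ⟨_, fun y => this _ y rfl⟩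
  · set z := fun t => (step tau)^[t] (x, r) with hz
    set m := v.1.1
    have hp : (0 : ℝ) < 3 / 8 * (1 / 4) ^ m := by positivity
    have key : ∀ T : ℕ, (((range T).filter fun t => (z t).1 = v).card : ℝ) * (3 / 8 * (1 / 4) ^ m) ≤
        7 := by
      intro T
      set F := (range T).image fun t => (z t).1
      have h1 : ∀ t ≤ T, ph m (z t).1 + ∑ y ∈ F, a m y * c y ((z t).2 y) +
          (((range t).filter fun s => (z s).1 = v).card : ℝ) * (3 / 8 * (1 / 4) ^ m) ≤
          ph m x + ∑ y ∈ F, a m y * c y (r y) := by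
        intro t
        induction t with
        | zero => intro _; simp [hz]
        | succ t ih =>
          intro ht
          have hF : (z t).1 ∈ F := mem_image_of_mem _ (mem_range.2 ht)
          have e : z (t + 1) = step tau (z t) := Function.iterate_succ_apply' _ _ _
          have h2 := drop m (z t).1 ((z t).2 (z t).1)
          have h3 := ih (by omega)
          rw [← add_sum_erase _ _ hF] at h3
          rw [e, ← add_sum_erase _ _ hF, range_add_one, filter_insert]
          simp only [step, Function.update_self]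
          rw [sum_congr rfl fun y hy => by rw [Function.update_of_ne (ne_of_mem_erase hy)]]
          split_ifs with h
          · rw [card_insert_of_notMem (by simp), if_pos (by rw [h])] at *
            push_cast
            linarith
          · have : (0 : ℝ) ≤ if (z t).1.1.1 = m then 3 / 8 * (1 / 4) ^ m else 0 := by
              split_ifs <;> positivity
            linarith
      have h2 := h1 T le_rfl
      have h3 := total m F r
      have h4 : ph m x ≤ 1 := pow_le_one₀ (by norm_num) (by norm_num)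
      have h5 : 0 ≤ ph m (z T).1 := by unfold ph; positivity
      have h6 : 0 ≤ ∑ y ∈ F, a m y * c y ((z T).2 y) := sum_nonneg fun y _ => by
        unfold a; split_ifs <;> positivity
      linarith
    by_contra hinf
    obtain ⟨N, hN⟩ := exists_nat_gt (7 / (3 / 8 * (1 / 4 : ℝ) ^ m))
    obtain ⟨S, hS, hc⟩ := Set.Infinite.exists_subset_card_eq hinf N
    have h1 : S ⊆ (range (S.sup id + 1)).filter fun t => (z t).1 = v := fun t ht =>
      mem_filter.2 ⟨mem_range.2 (Nat.lt_succ_of_le (le_sup (f := id) ht)), hS ht⟩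
    have h2 : (N : ℝ) ≤ ((range (S.sup id + 1)).filter fun t => (z t).1 = v).card := by
      exact_mod_cast hc ▸ card_le_card h1
    rw [div_lt_iff₀ hp] at hN
    nlinarith [key (S.sup id + 1)]

end Pool.Agent.Results.MP_c5a801_co.AllTransient
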